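import Pool.Agent.P.MP_efa640_lc.EF.Defs

/-! A back-and-forth system of countable maps between complete linear orders. -/

namespace Pool.Agent.P.MP_efa640_lc.EF

open Set

variable {K K' : Type*} [LinearOrder K] [LinearOrder K']

/-- `S` approaches `x` from the left -/
def WL (S : Set K) (x : K) : Prop := ∀ y < x, ∃ a ∈ S, y ≤ a ∧ a < x

/-- `S` approaches `x` from the right -/
def WR (S : Set K) (x : K) : Prop := ∀ y > x, ∃ a ∈ S, a ≤ y ∧ x < a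

/-- countable character from the left -/
def Lc (x : K) : Prop := ∃ S : Set K, S.Countable ∧ WL S x

/-- countable character from the right -/
def Rc (x : K) : Prop := ∃ S : Set K, S.Countable ∧ WR S x

theorem WL.mono {S T : Set K} {x : K} (h : WL S x) (hST : S ⊆ T) : WL T x := fun y hy =>
  let ⟨a, h1, h2⟩ := h y hy; ⟨a, hST h1, h2⟩

theorem WR.mono {S T : Set K} {x : K} (h : WR S x) (hST : S ⊆ T) : WR T x := fun y hy =>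
  let ⟨a, h1, h2⟩ := h y hy; ⟨a, hST h1, h2⟩

theorem wl_of_covBy {S : Set K} {x w : K} (h : w ⋖ x) (hw : w ∈ S) : WL S x := fun _ hy =>
  ⟨w, hw, h.le_of_lt hy, h.lt⟩

theorem wr_of_covBy {S : Set K} {x w : K} (h : x ⋖ w) (hw : w ∈ S) : WR S x := fun _ hy =>
  ⟨w, hw, h.ge_of_gt hy, h.lt⟩

theorem lc_of_covBy {x w : K} (h : w ⋖ x) : Lc x :=
  ⟨{w}, countable_singleton w, wl_of_covBy h rfl⟩

theorem rc_of_covBy {x w : K} (h : x ⋖ w) : Rc x :=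
  ⟨{w}, countable_singleton w, wr_of_covBy h rfl⟩

variable (K) in
/-- the properties of the orders that are used -/
structure Ax : Prop where
  lub : ∀ s : Set K, ∃ x, IsLUB s x
  glb : ∀ s : Set K, ∃ x, IsGLB s x
  up : ∀ x y z : K, x ⋖ y → y < z → ∃ w, y ⋖ w
  dn : ∀ x y z : K, x ⋖ y → z < x → ∃ w, w ⋖ x
  jump : ∀ x y : K, x < y → ∃ u v, x ≤ u ∧ u ⋖ v ∧ v ≤ y
  iso : ∀ x y z : K, Lc x → Rc x → y < x → x < z → ∃ w, w ⋖ x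
  fresh : ∀ a b : K, a < b → ¬ Rc a → ¬ Lc b → ∃ z, a < z ∧ z < b ∧ ¬ Lc z ∧ ¬ Rc z

theorem Ax.dual (h : Ax K) : Ax Kᵒᵈ where
  lub := h.glb
  glb := h.lub
  up x y z a b := let ⟨w, c⟩ := h.dn y x z a.ofDual b; ⟨w, c.toDual⟩
  dn x y z a b := let ⟨w, c⟩ := h.up y x z a.ofDual b; ⟨w, c.toDual⟩
  jump x y a := let ⟨u, v, b, c, d⟩ := h.jump y x a; ⟨v, u, d, c.toDual, b⟩
  iso x y z a b c d :=
    let ⟨w, e⟩ := h.iso x z y b a d c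
    let ⟨v, f⟩ := h.up w x y e c
    ⟨v, f.toDual⟩
  fresh a b c d e := let ⟨z, f, g, i, j⟩ := h.fresh b a c e d; ⟨z, g, f, j, i⟩

/-- the members of the back-and-forth system -/
structure Good (f : Set (K × K')) : Prop where
  cnt : f.Countable
  lt : ∀ p ∈ f, ∀ q ∈ f, p.1 < q.1 ↔ p.2 < q.2
  l : ∀ p ∈ f, Lc p.1 ∨ Lc p.2 → WL (Prod.fst '' f) p.1 ∧ WL (Prod.snd '' f) p.2
  r : ∀ p ∈ f, Rc p.1 ∨ Rc p.2 → WR (Prod.fst '' f) p.1 ∧ WR (Prod.snd '' f) p.2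
  bot : ∃ p ∈ f, IsBot p.1 ∧ IsBot p.2
  top : ∃ p ∈ f, IsTop p.1 ∧ IsTop p.2

variable {f : Set (K × K')}

theorem Good.le (h : Good f) {p q : K × K'} (hp : p ∈ f) (hq : q ∈ f) :
    p.1 ≤ q.1 ↔ p.2 ≤ q.2 := by
  rw [← not_lt, h.lt q hq p hp, not_lt]

theorem Good.dual (h : Good f) : Good (K := Kᵒᵈ) (K' := K'ᵒᵈ) f :=
  ⟨h.cnt, fun p hp q hq => h.lt q hq p hp, h.r, h.l, h.top, h.bot⟩

theorem Good.swap (h : Good f) : Good (Prod.swap '' f) := by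
  have e1 : Prod.fst '' (Prod.swap '' f) = Prod.snd '' f := image_image _ _ _
  have e2 : Prod.snd '' (Prod.swap '' f) = Prod.fst '' f := image_image _ _ _
  refine ⟨h.cnt.image _, ?_, ?_, ?_, ?_, ?_⟩
  · rintro _ ⟨p, hp, rfl⟩ _ ⟨q, hq, rfl⟩
    exact (h.lt p hp q hq).symm
  · rintro _ ⟨p, hp, rfl⟩ k
    rw [e1, e2]
    exact (h.l p hp k.symm).symm
  · rintro _ ⟨p, hp, rfl⟩ k
    rw [e1, e2]
    exact (h.r p hp k.symm).symm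
  · obtain ⟨p, a, b⟩ := h.bot
    exact ⟨_, ⟨p, a, rfl⟩, b.symm⟩
  · obtain ⟨p, a, b⟩ := h.top
    exact ⟨_, ⟨p, a, rfl⟩, b.symm⟩

theorem Good.iUnion {ι : Type*} [Countable ι] [Nonempty ι] {g : ι → Set (K × K')}
    (hd : Directed (· ⊆ ·) g) (h : ∀ i, Good (g i)) : Good (⋃ i, g i) := by
  have s := subset_iUnion g
  obtain ⟨i0⟩ := ‹Nonempty ι›
  refine ⟨countable_iUnion fun i => (h i).cnt, fun p hp q hq => ?_, fun p hp k => ?_,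
    fun p hp k => ?_, (h i0).bot.imp fun p a => ⟨s _ a.1, a.2⟩,
    (h i0).top.imp fun p a => ⟨s _ a.1, a.2⟩⟩ <;> obtain ⟨i, hi⟩ := mem_iUnion.1 hp
  · obtain ⟨j, hj⟩ := mem_iUnion.1 hq
    obtain ⟨k, a, b⟩ := hd i j
    exact (h k).lt p (a hi) q (b hj)
  · exact ((h i).l p hi k).imp (·.mono (image_mono (s i))) (·.mono (image_mono (s i)))
  · exact ((h i).r p hi k).imp (·.mono (image_mono (s i))) (·.mono (image_mono (s i)))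

theorem Good.union (h : Good f) {t : Set (K × K')} (ht : t.Countable)
    (h1 : ∀ p ∈ t, ∀ q ∈ t, p.1 < q.1 ↔ p.2 < q.2)
    (h2 : ∀ p ∈ t, ∀ q ∈ f, (p.1 < q.1 ∧ p.2 < q.2) ∨ (q.1 < p.1 ∧ q.2 < p.2))
    (hl : ∀ p ∈ t, Lc p.1 ∨ Lc p.2 →
      WL (Prod.fst '' (t ∪ f)) p.1 ∧ WL (Prod.snd '' (t ∪ f)) p.2)
    (hr : ∀ p ∈ t, Rc p.1 ∨ Rc p.2 →
      WR (Prod.fst '' (t ∪ f)) p.1 ∧ WR (Prod.snd '' (t ∪ f)) p.2) : Good (t ∪ f) := by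
  have s : f ⊆ t ∪ f := subset_union_right
  refine ⟨ht.union h.cnt, ?_, ?_, ?_, h.bot.imp fun p a => ⟨s a.1, a.2⟩,
    h.top.imp fun p a => ⟨s a.1, a.2⟩⟩
  · rintro p (hp | hp) q (hq | hq)
    · exact h1 p hp q hq
    · rcases h2 p hp q hq with a | a
      exacts [iff_of_true a.1 a.2, iff_of_false a.1.not_gt a.2.not_gt]
    · rcases h2 q hq p hp with a | a
      exacts [iff_of_false a.1.not_gt a.2.not_gt, iff_of_true a.1 a.2]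
    · exact h.lt p hp q hq
  · rintro p (hp | hp) k
    exacts [hl p hp k, (h.l p hp k).imp (·.mono (image_mono s)) (·.mono (image_mono s))]
  · rintro p (hp | hp) k
    exacts [hr p hp k, (h.r p hp k).imp (·.mono (image_mono s)) (·.mono (image_mono s))]

theorem Ax.limit (h : Ax K) {S : Set K} {a z : K} (hS : S.Countable) (hne : S.Nonempty)
    (ha : IsLUB S a) (hn : a ∉ S) (hz : a < z) : WL S a ∧ ¬ Rc a := by
  have lt : ∀ x ∈ S, x < a := fun x hx => (ha.1 hx).lt_of_ne fun e => hn (e ▸ hx)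
  have w : WL S a := fun y hy =>
    let ⟨x, a, b⟩ := (lt_isLUB_iff ha).1 hy; ⟨x, a, b.le, lt x a⟩
  refine ⟨w, fun r => ?_⟩
  obtain ⟨y, hy⟩ := hne
  obtain ⟨v, hv⟩ := h.iso a y z ⟨S, hS, w⟩ r (lt y hy) hz
  obtain ⟨x, a, b⟩ := (lt_isLUB_iff ha).1 hv.lt
  exact hv.2 b (lt x a)

theorem add_sup (hK : Ax K) (hK' : Ax K') (h : Good f) {x : K} (hx : x ∉ Prod.fst '' f) :
    ∃ p, Good ({p} ∪ f) ∧ IsLUB {a | a ∈ Prod.fst '' f ∧ a < x} p.1 := by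
  obtain ⟨A, hA⟩ : ∃ A, A = {q ∈ f | q.1 < x} := ⟨_, rfl⟩
  have mA : ∀ {q}, q ∈ A ↔ q ∈ f ∧ q.1 < x := by simp [hA]
  have e : {a | a ∈ Prod.fst '' f ∧ a < x} = Prod.fst '' A := by
    ext a
    exact ⟨fun ⟨⟨q, a, b⟩, c⟩ => ⟨q, mA.2 ⟨a, b ▸ c⟩, b⟩,
      fun ⟨q, a, b⟩ => ⟨⟨q, (mA.1 a).1, b⟩, b ▸ (mA.1 a).2⟩⟩
  rw [e]
  by_cases c : ∃ p ∈ A, ∀ q ∈ A, q.1 ≤ p.1
  · obtain ⟨p, a, b⟩ := c
    refine ⟨p, by rwa [union_eq_right.2 (singleton_subset_iff.2 (mA.1 a).1)],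
      IsGreatest.isLUB ⟨⟨p, a, rfl⟩, ?_⟩⟩
    rintro _ ⟨q, hq, rfl⟩
    exact b q hq
  push Not at c
  have gt : ∀ q ∈ f, q ∉ A → x < q.1 := fun q hq n =>
    (not_lt.1 fun k => n (mA.2 ⟨hq, k⟩)).lt_of_ne fun k => hx ⟨q, hq, k.symm⟩
  obtain ⟨a, ha⟩ := hK.lub (Prod.fst '' A)
  obtain ⟨a', ha'⟩ := hK'.lub (Prod.snd '' A)
  have ax : a ≤ x := ha.2 (by rintro _ ⟨q, hq, rfl⟩; exact (mA.1 hq).2.le)
  have l1 : ∀ q ∈ A, q.1 < a ∧ q.2 < a' := fun q hq =>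
    let ⟨r, b, d⟩ := c q hq
    ⟨d.trans_le (ha.1 ⟨r, b, rfl⟩),
      ((h.lt q (mA.1 hq).1 r (mA.1 b).1).1 d).trans_le (ha'.1 ⟨r, b, rfl⟩)⟩
  have l2 : ∀ q ∈ f, q ∉ A → a' ≤ q.2 := fun q hq n => ha'.2 (by
    rintro _ ⟨r, hr, rfl⟩
    exact ((h.lt r (mA.1 hr).1 q hq).1 ((mA.1 hr).2.trans (gt q hq n))).le)
  have n1 : a ∉ Prod.fst '' A := fun ⟨q, b, d⟩ => (l1 q b).1.ne d
  have n2 : a' ∉ Prod.snd '' A := fun ⟨q, b, d⟩ => (l1 q b).2.ne d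
  have cA : A.Countable := h.cnt.mono fun q hq => (mA.1 hq).1
  have l3 : ∀ q ∈ f, q ∉ A → a' < q.2 := fun q hq n => (l2 q hq n).lt_of_ne fun k => by
    have w : WL (Prod.snd '' A) a' := fun y hy =>
      let ⟨_, ⟨r, b, rfl⟩, d⟩ := (lt_isLUB_iff ha').1 hy; ⟨_, ⟨r, b, rfl⟩, d.le, (l1 r b).2⟩
    obtain ⟨_, ⟨r, b, rfl⟩, d, g⟩ := (h.l q hq (Or.inr ⟨_, cA.image _, k ▸ w⟩)).1 x (gt q hq n)
    exact ((h.lt r b q hq).1 g).not_ge (k ▸ l2 r b fun i => (mA.1 i).2.not_ge d)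
  obtain ⟨b, b1, b2, -⟩ := h.bot
  obtain ⟨t, t1, t2, -⟩ := h.top
  have bA : b ∈ A := by_contra fun n => (gt b b1 n).not_ge (b2 x)
  have tA : t ∉ A := fun n => (mA.1 n).2.not_ge (t2 x)
  obtain ⟨w1, r1⟩ := hK.limit (cA.image _) ⟨_, b, bA, rfl⟩ ha n1 (ax.trans_lt (gt t t1 tA))
  obtain ⟨w2, r2⟩ := hK'.limit (cA.image _) ⟨_, b, bA, rfl⟩ ha' n2 (l3 t t1 tA)
  have s : A ⊆ {(a, a')} ∪ f := fun q hq => Or.inr (mA.1 hq).1
  refine ⟨(a, a'), h.union (countable_singleton _) ?_ ?_ ?_ ?_, ha⟩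
  · rintro _ rfl _ rfl
    simp
  · rintro _ rfl q hq
    by_cases k : q ∈ A
    exacts [Or.inr (l1 q k), Or.inl ⟨ax.trans_lt (gt q hq k), l3 q hq k⟩]
  · rintro _ rfl -
    exact ⟨w1.mono (image_mono s), w2.mono (image_mono s)⟩
  · rintro _ rfl k
    exact (k.elim r1 r2).elim

theorem add_inf (hK : Ax K) (hK' : Ax K') (h : Good f) {x : K} (hx : x ∉ Prod.fst '' f) :
    ∃ p, Good ({p} ∪ f) ∧ IsGLB {a | a ∈ Prod.fst '' f ∧ x < a} p.1 :=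
  let ⟨p, a, b⟩ := add_sup hK.dual hK'.dual h.dual hx
  ⟨p, a.dual, b⟩

/-- `x` can be added to the domain -/
def Ext (f : Set (K × K')) (x : K) : Prop := ∃ g, f ⊆ g ∧ Good g ∧ x ∈ Prod.fst '' g

theorem Ext.mono {g : Set (K × K')} {x : K} (h : Ext g x) (hf : f ⊆ g) : Ext f x :=
  let ⟨g', a, b⟩ := h; ⟨g', hf.trans a, b⟩

/-- reduction to a gap of the map -/
theorem ext_of_gap (hK : Ax K) (hK' : Ax K') (h : Good f) {x : K}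
    (H : ∀ p q : K × K', p.1 < x → x < q.1 → p.2 < q.2 → ¬ Rc p.1 → ¬ Rc p.2 → ¬ Lc q.1 →
      ¬ Lc q.2 → ∃ t : Set (K × K'), t.Countable ∧ x ∈ Prod.fst '' t ∧
      (∀ r ∈ t, p.1 < r.1 ∧ r.1 < q.1 ∧ p.2 < r.2 ∧ r.2 < q.2) ∧
      (∀ r ∈ t, ∀ r' ∈ t, r.1 < r'.1 ↔ r.2 < r'.2) ∧
      (∀ r ∈ t, Lc r.1 ∨ Lc r.2 → WL (Prod.fst '' t) r.1 ∧ WL (Prod.snd '' t) r.2) ∧
      ∀ r ∈ t, Rc r.1 ∨ Rc r.2 → WR (Prod.fst '' t) r.1 ∧ WR (Prod.snd '' t) r.2) : Ext f x := by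
  by_cases h0 : x ∈ Prod.fst '' f
  · exact ⟨f, Subset.rfl, h, h0⟩
  obtain ⟨p, g1, p1⟩ := add_sup hK hK' h h0
  refine Ext.mono ?_ (subset_union_right (s := {p}))
  by_cases h1 : x ∈ Prod.fst '' ({p} ∪ f)
  · exact ⟨_, Subset.rfl, g1, h1⟩
  obtain ⟨q, g3, q1⟩ := add_inf hK hK' g1 h1
  refine Ext.mono ?_ (subset_union_right (s := {q}))
  by_cases h2 : x ∈ Prod.fst '' ({q} ∪ ({p} ∪ f))
  · exact ⟨_, Subset.rfl, g3, h2⟩
  have mp : p ∈ {q} ∪ ({p} ∪ f) := Or.inr (Or.inl rfl)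
  have mq : q ∈ {q} ∪ ({p} ∪ f) := Or.inl rfl
  have px : p.1 < x := (p1.2 fun _ a => a.2.le).lt_of_ne fun e => h2 ⟨p, mp, e⟩
  have xq : x < q.1 := (q1.2 fun _ a => a.2.le).lt_of_ne fun e => h2 ⟨q, mq, e.symm⟩
  have adj : ∀ r ∈ {q} ∪ ({p} ∪ f), r.1 ≤ p.1 ∨ q.1 ≤ r.1 := by
    rintro r (rfl | rfl | hr)
    · exact Or.inr le_rfl
    · exact Or.inl le_rfl
    · rcases lt_trichotomy r.1 x with a | a | a
      exacts [Or.inl (p1.1 ⟨⟨r, hr, rfl⟩, a⟩), (h0 ⟨r, hr, a⟩).elim,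
        Or.inr (q1.1 ⟨⟨r, Or.inr hr, rfl⟩, a⟩)]
  have n1 : ¬ (Rc p.1 ∨ Rc p.2) := fun k => by
    obtain ⟨_, ⟨r, a, rfl⟩, b, c⟩ := (g3.r p mp k).1 x px
    exact (adj r a).elim c.not_ge (b.trans_lt xq).not_ge
  have n2 : ¬ (Lc q.1 ∨ Lc q.2) := fun k => by
    obtain ⟨_, ⟨r, a, rfl⟩, b, c⟩ := (g3.l q mq k).1 x xq
    exact (adj r a).elim (px.trans_le b).not_ge c.not_ge
  rw [not_or] at n1 n2
  obtain ⟨t, t1, t2, t3, t4, t5, t6⟩ :=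
    H p q px xq ((g3.lt p mp q mq).1 (px.trans xq)) n1.1 n1.2 n2.1 n2.2
  have s : t ⊆ t ∪ ({q} ∪ ({p} ∪ f)) := subset_union_left
  refine ⟨_, subset_union_right, g3.union t1 t4 (fun r hr u hu => ?_)
    (fun r hr k => (t5 r hr k).imp (·.mono (image_mono s)) (·.mono (image_mono s)))
    (fun r hr k => (t6 r hr k).imp (·.mono (image_mono s)) (·.mono (image_mono s))),
    image_mono s t2⟩
  obtain ⟨a, b, c, d⟩ := t3 r hr
  exact (adj u hu).symm.imp (fun e => ⟨b.trans_le e, d.trans_le ((g3.le mq hu).1 e)⟩)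
    fun e => ⟨e.trans_lt a, ((g3.le hu mp).1 e).trans_lt c⟩

theorem ext_unc (hK : Ax K) (hK' : Ax K') (h : Good f) {x : K} (h1 : ¬ Lc x) (h2 : ¬ Rc x) :
    Ext f x := ext_of_gap hK hK' h fun p q a b c _ d _ e => by
  obtain ⟨z, z1, z2, z3, z4⟩ := hK'.fresh _ _ c d e
  refine ⟨{(x, z)}, countable_singleton _, ⟨_, rfl, rfl⟩, ?_, ?_, ?_, ?_⟩
  · rintro _ rfl
    exact ⟨a, b, z1, z2⟩
  · rintro _ rfl _ rfl
    simp
  · rintro _ rfl k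
    exact (k.elim h1 z3).elim
  · rintro _ rfl k
    exact (k.elim h2 z4).elim

theorem Ax.block (h : Ax K) {a b x w : K} (ha : ¬ Rc a) (hb : ¬ Lc b) (h1 : a < x) (h2 : x < b)
    (hw : w ⋖ x) : ∃ s : ℤ → K, s 0 = x ∧ ∀ n, s n ⋖ s (n + 1) ∧ a < s n ∧ s n < b := by
  let T := {y : K // (∃ w, w ⋖ y) ∧ a < y ∧ y < b}
  have u : ∀ y : T, ∃ z : T, y.1 ⋖ z.1 := fun ⟨y, ⟨v, c⟩, d, e⟩ =>
    let ⟨z, g⟩ := h.up v y b c e
    ⟨⟨z, ⟨y, g⟩, d.trans g.lt, (g.ge_of_gt e).lt_of_ne fun k => hb (k ▸ lc_of_covBy g)⟩, g⟩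
  choose σ hσ using u
  have bij : Function.Bijective σ := ⟨fun y z e => Subtype.ext
    ((hσ y).unique_left (e ▸ hσ z)), fun ⟨y, ⟨v, c⟩, d, e⟩ =>
      have i : a < v := (c.le_of_lt d).lt_of_ne fun k => ha (k ▸ rc_of_covBy c)
      ⟨⟨v, h.dn v y a c i, i, c.lt.trans e⟩, Subtype.ext ((hσ _).unique_right c)⟩⟩
  let τ : Equiv.Perm T := Equiv.ofBijective σ bij
  refine ⟨fun n => ((τ ^ n) ⟨x, ⟨w, hw⟩, h1, h2⟩).1, rfl, fun n =>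
    ⟨?_, ((τ ^ n) ⟨x, ⟨w, hw⟩, h1, h2⟩).2.2⟩⟩
  dsimp only
  rw [add_comm, zpow_one_add]
  exact hσ _

theorem ext_iso (hK : Ax K) (hK' : Ax K') (h : Good f) {x w : K} (hw : w ⋖ x) : Ext f x :=
  ext_of_gap hK hK' h fun p q a b c d d' e e' => by
  obtain ⟨u, v, u1, u2, u3⟩ := hK'.jump _ _ c
  obtain ⟨s, s0, hs⟩ := hK.block d e a b hw
  obtain ⟨s', -, hs'⟩ := hK'.block d' e' (u1.trans_lt u2.lt)
    (u3.lt_of_ne fun k => e' (k ▸ lc_of_covBy u2)) u2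
  have m := strictMono_int_of_lt_succ fun n => (hs n).1.lt
  have m' := strictMono_int_of_lt_succ fun n => (hs' n).1.lt
  refine ⟨range fun n => (s n, s' n), countable_range _, ⟨_, ⟨0, rfl⟩, s0⟩, ?_, ?_, ?_, ?_⟩
  · rintro _ ⟨n, rfl⟩
    exact ⟨(hs n).2.1, (hs n).2.2, (hs' n).2⟩
  · rintro _ ⟨n, rfl⟩ _ ⟨k, rfl⟩
    exact m.lt_iff_lt.trans m'.lt_iff_lt.symm
  · rintro _ ⟨n, rfl⟩ -
    exact ⟨wl_of_covBy (by simpa using (hs (n - 1)).1) ⟨_, ⟨n - 1, rfl⟩, rfl⟩,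
      wl_of_covBy (by simpa using (hs' (n - 1)).1) ⟨_, ⟨n - 1, rfl⟩, rfl⟩⟩
  · rintro _ ⟨n, rfl⟩ -
    exact ⟨wr_of_covBy (hs n).1 ⟨_, ⟨n + 1, rfl⟩, rfl⟩,
      wr_of_covBy (hs' n).1 ⟨_, ⟨n + 1, rfl⟩, rfl⟩⟩

theorem ext_many (h : Good f) {V : Set K} (hV : V.Countable)
    (H : ∀ g : Set (K × K'), Good g → ∀ x ∈ V, Ext g x) :
    ∃ g, f ⊆ g ∧ Good g ∧ V ⊆ Prod.fst '' g := by
  rcases V.eq_empty_or_nonempty with rfl | hne
  · exact ⟨f, Subset.rfl, h, empty_subset _⟩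
  obtain ⟨v, rfl⟩ := hV.exists_eq_range hne
  choose F F1 F2 F3 using fun (g : {g : Set (K × K') // Good g}) n => H g.1 g.2 (v n) ⟨n, rfl⟩
  let g : ℕ → {g : Set (K × K') // Good g} := fun n => n.rec ⟨f, h⟩ fun n g => ⟨F g n, F2 g n⟩
  refine ⟨⋃ n, (g n).1, subset_iUnion (fun n => (g n).1) 0, Good.iUnion
    (monotone_nat_of_le_succ (f := fun n => (g n).1) fun n => F1 (g n) n).directed_le
    fun n => (g n).2, ?_⟩
  rintro _ ⟨n, rfl⟩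
  exact image_mono (subset_iUnion (fun n => (g n).1) (n + 1)) (F3 (g n) n)

theorem ext_lc (hK : Ax K) (hK' : Ax K') (h : Good f) {x : K} (hx : Lc x) : Ext f x := by
  by_cases c : ∃ w, w ⋖ x
  · exact ext_iso hK hK' h c.choose_spec
  obtain ⟨S, S1, S2⟩ := hx
  have : ∀ a : {a // a ∈ S ∧ a < x}, ∃ v, (∃ u, u ⋖ v) ∧ a.1 < v ∧ v < x := fun a =>
    let ⟨u, v, b, d, e⟩ := hK.jump _ _ a.2.2
    ⟨v, ⟨u, d⟩, b.trans_lt d.lt, e.lt_of_ne fun k => c ⟨u, k ▸ d⟩⟩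
  choose v v1 v2 v3 using this
  have : Countable {a // a ∈ S ∧ a < x} := (S1.mono fun _ a => a.1).to_subtype
  obtain ⟨g, g1, g2, g3⟩ := ext_many h (countable_range v) fun g hg _ ⟨a, e⟩ =>
    e ▸ ext_iso hK hK' hg (v1 a).choose_spec
  by_cases h0 : x ∈ Prod.fst '' g
  · exact ⟨g, g1, g2, h0⟩
  obtain ⟨p, p1, p2⟩ := add_sup hK hK' g2 h0
  refine ⟨_, g1.trans subset_union_right, p1, p, Or.inl rfl,
    (p2.2 fun _ a => a.2.le).eq_of_not_lt fun k => ?_⟩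
  obtain ⟨a, a1, a2, a3⟩ := S2 _ k
  exact (a2.trans_lt (v2 ⟨a, a1, a3⟩)).not_ge (p2.1 ⟨g3 ⟨_, rfl⟩, v3 _⟩)

theorem ext_all (hK : Ax K) (hK' : Ax K') (h : Good f) (x : K) : Ext f x := by
  by_cases h1 : Lc x
  · exact ext_lc hK hK' h h1
  by_cases h2 : Rc x
  · obtain ⟨g, a, b, c⟩ := ext_lc hK.dual hK'.dual h.dual h2
    exact ⟨g, a, b.dual, c⟩
  exact ext_unc hK hK' h h1 h2

theorem ext_move (hK : Ax K) (hK' : Ax K') (h : Good f) (m : K ⊕ K') :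
    ∃ z : Set (K × K') × K × K', f ⊆ z.1 ∧ Good z.1 ∧ z.2 ∈ z.1 ∧
      (m = .inl z.2.1 ∨ m = .inr z.2.2) := by
  rcases m with x | x
  · obtain ⟨g, a, b, p, c, rfl⟩ := ext_all hK hK' h x
    exact ⟨(g, p), a, b, c, Or.inl rfl⟩
  · obtain ⟨g, a, b, p, c, rfl⟩ := ext_all hK' hK h.swap x
    exact ⟨(Prod.swap '' g, p.swap), fun q hq => ⟨q.swap, a ⟨q, hq, rfl⟩, rfl⟩, b.swap,
      ⟨p, c, rfl⟩, Or.inr rfl⟩

theorem good_start {s : ℕ → K} {s' : ℕ → K'} {t : K} {t' : K'} (b : IsBot (s 0))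
    (b' : IsBot (s' 0)) (c : ∀ n, s n ⋖ s (n + 1)) (c' : ∀ n, s' n ⋖ s' (n + 1)) (d : IsTop t)
    (d' : IsTop t') (e : ¬ Lc t) (e' : ¬ Lc t') :
    Good (insert (t, t') (range fun n => (s n, s' n))) := by
  have l := fun n => (c n).lt.trans_le (d _)
  have l' := fun n => (c' n).lt.trans_le (d' _)
  refine ⟨(countable_range _).insert _, ?_, ?_, ?_, ⟨_, Or.inr ⟨0, rfl⟩, b, b'⟩,
    ⟨_, Or.inl rfl, d, d'⟩⟩
  · rintro _ (rfl | ⟨n, rfl⟩) _ (rfl | ⟨k, rfl⟩)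
    · simp
    · exact iff_of_false (l k).not_gt (l' k).not_gt
    · exact iff_of_true (l n) (l' n)
    · exact (strictMono_nat_of_lt_succ fun n => (c n).lt).lt_iff_lt.trans
        (strictMono_nat_of_lt_succ fun n => (c' n).lt).lt_iff_lt.symm
  · rintro _ (rfl | ⟨_ | n, rfl⟩) k
    · exact (k.elim e e').elim
    · exact ⟨fun y hy => (hy.not_ge (b y)).elim, fun y hy => (hy.not_ge (b' y)).elim⟩
    · exact ⟨wl_of_covBy (c n) ⟨_, Or.inr ⟨n, rfl⟩, rfl⟩,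
        wl_of_covBy (c' n) ⟨_, Or.inr ⟨n, rfl⟩, rfl⟩⟩
  · rintro _ (rfl | ⟨n, rfl⟩) -
    · exact ⟨fun y hy => (hy.not_ge (d y)).elim, fun y hy => (hy.not_ge (d' y)).elim⟩
    · exact ⟨wr_of_covBy (c n) ⟨_, Or.inr ⟨n + 1, rfl⟩, rfl⟩,
        wr_of_covBy (c' n) ⟨_, Or.inr ⟨n + 1, rfl⟩, rfl⟩⟩

theorem countable_Iio_of_lt {i : Ordinal.{0}} (h : i < Ordinal.omega 1) : (Iio i).Countable := by
  rw [← Cardinal.le_aleph0_iff_set_countable, Cardinal.mk_Iio_ordinal, Cardinal.lift_le_aleph0,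
    ← Order.lt_succ_iff, Cardinal.succ_aleph0, ← Cardinal.lt_ord, Cardinal.ord_aleph]
  exact h

theorem wins (hK : Ax K) (hK' : Ax K') (h : Good f) {γ : Ordinal.{0}}
    (hγ : γ ≤ Ordinal.omega 1) : IIWins ((· ≤ ·) : K → K → Prop) ((· ≤ ·) : K' → K' → Prop) γ := by
  obtain ⟨p0, -⟩ := h.bot
  have : Nonempty (Set (K × K') × K × K') := ⟨(f, p0)⟩
  let E : Set (K × K') → K ⊕ K' → Set (K × K') × K × K' := fun g m => Classical.epsilon fun z =>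
    g ⊆ z.1 ∧ Good z.1 ∧ z.2 ∈ z.1 ∧ (m = .inl z.2.1 ∨ m = .inr z.2.2)
  let F : (Iio γ → K ⊕ K') → Iio γ → Set (K × K') × K × K' := fun m =>
    wellFounded_lt.fix fun i rec => E (f ∪ ⋃ j : Iio i, (rec j.1 j.2).1) (m i)
  have hF : ∀ m i, F m i = E (f ∪ ⋃ j : Iio i, (F m j).1) (m i) := fun m i =>
    wellFounded_lt.fix_eq _ i
  have key : ∀ m i, f ∪ ⋃ j : Iio i, (F m j).1 ⊆ (F m i).1 ∧ Good (F m i).1 ∧
      (F m i).2 ∈ (F m i).1 ∧ (m i = .inl (F m i).2.1 ∨ m i = .inr (F m i).2.2) := fun m i => by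
    induction i using WellFoundedLT.induction with | _ i ih => ?_
    rw [hF m i]
    refine Classical.epsilon_spec (ext_move hK hK' ?_ (m i))
    rcases isEmpty_or_nonempty (Iio i) with e | e
    · rwa [iUnion_of_empty, union_empty]
    have : Countable (Iio i) := ((countable_Iio_of_lt (i.2.trans_le hγ)).preimage
      Subtype.val_injective).to_subtype
    obtain ⟨j⟩ := id e
    rw [union_eq_right.2 ((subset_union_left.trans (ih j j.2).1).trans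
      (subset_iUnion (fun j : Iio i => (F m j).1) j))]
    refine Good.iUnion (Monotone.directed_le fun a b hab => ?_) fun j => (ih j j.2).2.1
    rcases hab.lt_or_eq with k | rfl
    · exact (subset_union_of_subset_right
        (subset_iUnion (fun j : Iio b.1 => (F m j).1) ⟨a.1, k⟩) _).trans (ih b b.2).1
    · exact Subset.rfl
  have mono : ∀ m, Monotone fun i => (F m i).1 := fun m a b hab => by
    rcases hab.lt_or_eq with k | rfl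
    · exact (subset_union_of_subset_right
        (subset_iUnion (fun j : Iio b => (F m j).1) ⟨a, k⟩) _).trans (key m b).1
    · exact Subset.rfl
  refine ⟨fun m i => (F m i).2, fun m m' i H => congrArg Prod.snd ?_, fun m i => (key m i).2.2.2,
    fun m i j => (key m (max i j)).2.1.le (mono m (le_max_left _ _) (key m i).2.2.1)
      (mono m (le_max_right _ _) (key m j).2.2.1)⟩
  induction i using WellFoundedLT.induction with | _ i ih => ?_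
  rw [hF m i, hF m' i, H i le_rfl,
    iUnion_congr fun j : Iio i => congrArg Prod.fst (ih j j.2 fun k hk => H k (hk.trans j.2.le))]

end Pool.Agent.P.MP_efa640_lc.EF
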