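import Mathlib

namespace Pool.Agent.P.MP_efa640_lc.EF

/-- Player II has a winning strategy in the Ehrenfeucht-Fraisse game of length `γ` on the
structures `(A, r)` and `(B, s)`. In round `i < γ` player I picks an element `m i` of `A` or of
`B`; the strategy `Φ` answers with the pair `Φ m i`, which contains the element picked by I and
depends only on the moves of I in the rounds `j ≤ i`; the pairs played respect the relations. -/
def IIWins {A B : Type*} (r : A → A → Prop) (s : B → B → Prop) (γ : Ordinal.{0}) : Prop :=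
  ∃ Φ : (Set.Iio γ → A ⊕ B) → Set.Iio γ → A × B,
    (∀ m m' i, (∀ j ≤ i, m j = m' j) → Φ m i = Φ m' i) ∧
    (∀ m i, m i = Sum.inl (Φ m i).1 ∨ m i = Sum.inr (Φ m i).2) ∧
    ∀ m i j, r (Φ m i).1 (Φ m j).1 ↔ s (Φ m i).2 (Φ m j).2

end Pool.Agent.P.MP_efa640_lc.EF
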