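import Pool.Agent.P.MP_efa640_lc.EF.Abs
import Pool.Agent.P.MP_efa640_lc.Order

/-! The nonempty lower sets of a discrete countably saturated order. -/

namespace Pool.Agent.P.MP_efa640_lc.EF

open Set

variable {L : Type*} [LinearOrder L]

noncomputable instance nlLin : LinearOrder (NL L) :=
  { (inferInstance : PartialOrder (NL L)) with
    le_total := fun a b => a.2.1.total b.2.1
    toDecidableLE := Classical.decRel _ }

/-- uncountable cofinality -/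
def UL (Z : Set L) : Prop := ∀ A ⊆ Z, A.Countable → ∃ z ∈ Z, ∀ x ∈ A, x < z

/-- uncountable coinitiality of the complement -/
def UR (Z : Set L) : Prop := ∀ B ⊆ Zᶜ, B.Countable → ∃ z ∉ Z, ∀ x ∈ B, z < x

variable (L) in
/-- the properties of ultrapowers that are used -/
structure Disc : Prop where
  succ : ∀ x : L, ∃ y, x ⋖ y
  pred : ∀ x y : L, y < x → ∃ w, w ⋖ x
  bot : ∃ b : L, IsBot b
  sat : ∀ A B : Set L, A.Countable → B.Countable → (∀ a ∈ A, ∀ b ∈ B, a ≤ b) →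
    ∃ c, (∀ a ∈ A, a ≤ c) ∧ ∀ b ∈ B, c ≤ b
  unc : ∀ a b : L, (Ioo a b).Infinite → ∃ Z, IsLowerSet Z ∧ a ∈ Z ∧ b ∉ Z ∧ UL Z ∧ UR Z

variable {D E : NL L} {x y : L}

theorem nl_lt : D < E ↔ ∃ x ∈ E.1, x ∉ D.1 := by
  rw [← not_le]
  exact not_subset

theorem princ_le : princ x ≤ D ↔ x ∈ D.1 := ⟨fun h => h le_rfl, fun h _ hy => D.2.1 hy h⟩

theorem lt_princ : D < princ x ↔ x ∉ D.1 := by rw [← not_le, princ_le]

theorem lt_of_mem (hx : x ∈ D.1) (hy : y ∉ D.1) : x < y := not_le.1 fun h => hy (D.2.1 h hx)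

theorem princ_covBy (h : x ⋖ y) : princ x ⋖ princ y :=
  ⟨lt_princ.2 h.lt.not_ge, fun _ a b =>
    let ⟨_, c, d⟩ := nl_lt.1 a
    h.2 (not_le.1 d) (lt_of_mem c (lt_princ.1 b))⟩

theorem nlc (h : UL D.1) : ¬ Lc D := by
  rintro ⟨S, S1, S2⟩
  choose a a1 a2 using fun E : {E // E ∈ S ∧ E < D} => nl_lt.1 E.2.2
  have : Countable {E // E ∈ S ∧ E < D} := (S1.mono fun _ a => a.1).to_subtype
  obtain ⟨z, z1, z2⟩ := h _ (range_subset_iff.2 a1) (countable_range a)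
  obtain ⟨w, w1, w2⟩ := h {z} (singleton_subset_iff.2 z1) (countable_singleton z)
  obtain ⟨E, b, c, d⟩ := S2 (princ z) (nl_lt.2 ⟨w, w1, (w2 z rfl).not_ge⟩)
  exact a2 ⟨E, b, d⟩ (E.2.1 (z2 _ ⟨_, rfl⟩).le (princ_le.1 c))

theorem nrc (h : UR D.1) : ¬ Rc D := by
  rintro ⟨S, S1, S2⟩
  choose a a1 a2 using fun E : {E // E ∈ S ∧ D < E} => nl_lt.1 E.2.2
  have : Countable {E // E ∈ S ∧ D < E} := (S1.mono fun _ a => a.1).to_subtype
  obtain ⟨z, z1, z2⟩ := h _ (range_subset_iff.2 a2) (countable_range a)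
  obtain ⟨E, b, c, d⟩ := S2 (princ z) (lt_princ.2 z1)
  exact (z2 _ ⟨⟨E, b, d⟩, rfl⟩).not_ge (c (a1 ⟨E, b, d⟩))

namespace Disc

variable (h : Disc L)
include h

theorem jump (hD : D < E) : ∃ x y, x ⋖ y ∧ D ≤ princ x ∧ princ y ≤ E := by
  obtain ⟨y, a, b⟩ := nl_lt.1 hD
  obtain ⟨d, c⟩ := D.2.2
  obtain ⟨x, e⟩ := h.pred y d (lt_of_mem c b)
  exact ⟨x, y, e, fun z hz => e.le_of_lt (lt_of_mem hz b), princ_le.2 a⟩

theorem covBy (hD : D ⋖ E) : ∃ x y, D = princ x ∧ E = princ y := by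
  obtain ⟨x, y, a, b, c⟩ := h.jump hD.lt
  have := (princ_covBy a).lt
  exact ⟨x, y, b.antisymm (hD.le_of_lt (this.trans_le c)),
    (hD.ge_of_gt (b.trans_lt this)).antisymm c⟩

theorem pred_princ (hD : D < princ x) : ∃ W, W ⋖ princ x :=
  let ⟨d, c⟩ := D.2.2
  let ⟨_, e⟩ := h.pred x d (lt_of_mem c (lt_princ.1 hD))
  ⟨_, princ_covBy e⟩

theorem ax : Ax (NL L) where
  lub s := by
    obtain ⟨b, hb⟩ := h.bot
    refine ⟨⟨{x | x ≤ b ∨ ∃ D ∈ s, x ∈ D.1}, ?_, b, Or.inl le_rfl⟩,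
      fun D hD x hx => Or.inr ⟨D, hD, hx⟩, ?_⟩
    · rintro x y k (a | ⟨D, a, c⟩)
      exacts [Or.inl (k.trans a), Or.inr ⟨D, a, D.2.1 k c⟩]
    · rintro E hE x (a | ⟨D, a, c⟩)
      exacts [E.2.1 (a.trans (hb _)) E.2.2.some_mem, hE a c]
  glb s := by
    obtain ⟨b, hb⟩ := h.bot
    exact ⟨⟨{x | ∀ D ∈ s, x ∈ D.1}, fun x y k a D hD => D.2.1 k (a D hD), b,
      fun D _ => D.2.1 (hb _) D.2.2.some_mem⟩, fun D hD x hx => hx D hD,
      fun E hE x hx D hD => hE hD hx⟩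
  up D E _ a _ := by
    obtain ⟨x, y, -, rfl⟩ := h.covBy a
    exact ⟨_, princ_covBy (h.succ y).choose_spec⟩
  dn D E Z a b := by
    obtain ⟨x, y, rfl, -⟩ := h.covBy a
    exact h.pred_princ b
  jump D E a := let ⟨_, _, b, c, d⟩ := h.jump a; ⟨_, _, c, princ_covBy b, d⟩
  iso D Y _ a b c _ := by
    have h1 : ¬ UL D.1 := fun k => nlc k a
    have h2 : ¬ UR D.1 := fun k => nrc k b
    simp only [UL, UR] at h1 h2
    push Not at h1 h2
    obtain ⟨A, A1, A2, A3⟩ := h1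
    obtain ⟨B, B1, B2, B3⟩ := h2
    obtain ⟨z, z1, z2⟩ := h.sat A B A2 B2 fun a ha b hb => (lt_of_mem (A1 ha) (B1 hb)).le
    obtain ⟨w, rfl⟩ : ∃ w, D = princ w := by
      by_cases k : z ∈ D.1
      · exact ⟨z, le_antisymm (fun u hu => let ⟨v, d, e⟩ := A3 u hu; e.trans (z1 v d))
          (princ_le.2 k)⟩
      · obtain ⟨w, hw⟩ := h.pred z _ (lt_of_mem D.2.2.some_mem k)
        exact ⟨w, le_antisymm (fun u hu => hw.le_of_lt (lt_of_mem hu k)) (princ_le.2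
          (by_contra fun n => let ⟨v, d, e⟩ := B3 w n; hw.lt.not_ge ((z2 v d).trans e)))⟩
    exact h.pred_princ c
  fresh D E a _ c := by
    obtain ⟨x, x1, x2⟩ := nl_lt.1 a
    choose σ hσ using h.succ
    have m : StrictMono fun n => σ^[n] x := strictMono_nat_of_lt_succ fun n => by
      rw [Function.iterate_succ_apply']
      exact (hσ _).lt
    have k : ∀ y ∈ E.1, princ y < E := fun y hy => (princ_le.2 hy).lt_of_ne fun e => by
      subst e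
      exact c (lc_of_covBy (h.pred_princ a).choose_spec)
    have l : ∀ n, σ^[n] x ∈ E.1 := fun n => by
      induction n with
      | zero => exact x1
      | succ n ih =>
        rw [Function.iterate_succ_apply']
        exact princ_le.1 ((princ_covBy (hσ _)).ge_of_gt (k _ ih))
    obtain ⟨y, y1, y2⟩ : ∃ y ∈ E.1, ∀ n, σ^[n] x < y := by
      by_contra! n
      refine c ⟨_, countable_range fun n => princ (σ^[n] x), fun Y hY => ?_⟩
      obtain ⟨y, y1, y2⟩ := nl_lt.1 hY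
      obtain ⟨n, hn⟩ := n y y1
      exact ⟨_, ⟨n, rfl⟩, fun z hz => (lt_of_mem hz y2).le.trans hn, k _ (l n)⟩
    obtain ⟨Z, z1, z2, z3, z4, z5⟩ := h.unc x y (infinite_of_injective_forall_mem
      (f := fun n => σ^[n + 1] x) (fun _ _ e => Nat.succ_injective (m.injective e))
      fun n => ⟨m n.succ_pos, y2 _⟩)
    exact ⟨⟨Z, z1, x, z2⟩, nl_lt.2 ⟨x, z2, x2⟩, nl_lt.2 ⟨y, y1, z3⟩, nlc z4, nrc z5⟩

theorem start : ∃ (s : ℕ → NL L) (t : NL L), IsBot (s 0) ∧ (∀ n, s n ⋖ s (n + 1)) ∧ IsTop t ∧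
    ¬ Lc t := by
  obtain ⟨b, hb⟩ := h.bot
  choose σ hσ using h.succ
  refine ⟨fun n => princ (σ^[n] b), ⟨univ, isLowerSet_univ, b, trivial⟩,
    fun D => princ_le.2 (D.2.1 (hb _) D.2.2.some_mem), fun n => princ_covBy ?_,
    fun D => subset_univ D.1, nlc fun A _ hA => ?_⟩
  · rw [Function.iterate_succ_apply']
    exact hσ _
  · obtain ⟨c, hc, -⟩ := h.sat A ∅ hA countable_empty fun _ _ _ k => k.elim
    exact ⟨σ c, trivial, fun x hx => (hc x hx).trans_lt (hσ c).lt⟩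

theorem wins {L' : Type*} [LinearOrder L'] (h' : Disc L') {γ : Ordinal.{0}}
    (hγ : γ ≤ Ordinal.omega 1) :
    IIWins ((· ≤ ·) : NL L → NL L → Prop) ((· ≤ ·) : NL L' → NL L' → Prop) γ :=
  let ⟨_, _, a, b, c, d⟩ := h.start
  let ⟨_, _, a', b', c', d'⟩ := h'.start
  EF.wins h.ax h'.ax (good_start a a' b b' c c' d d') hγ

end Disc

end Pool.Agent.P.MP_efa640_lc.EF
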