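import Pool.Agent.P.MP_efa640_lc.EF.Ult
import Pool.Agent.P.MP_efa640_lc.Main

/-! The threshold for the Ehrenfeucht-Fraisse game. -/

namespace Pool.Agent.P.MP_efa640_lc.EF

open Set Filter FirstOrder

section game

variable {A B A' B' : Type*} {r : A → A → Prop} {s : B → B → Prop} {r' : A' → A' → Prop}
  {s' : B' → B' → Prop} {γ : Ordinal.{0}}

theorem IIWins.congr (h : IIWins r s γ) (e : r ≃r r') (e' : s ≃r s') : IIWins r' s' γ := by
  obtain ⟨Φ, a, b, c⟩ := h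
  refine ⟨fun m i => Prod.map e e' (Φ (fun j => (m j).map e.symm e'.symm) i),
    fun m m' i H => congrArg _ (a _ _ i fun j hj => by rw [H j hj]), fun m i => ?_,
    fun m i j => e.map_rel_iff.trans ((c _ i j).trans e'.map_rel_iff.symm)⟩
  have := b (fun j => (m j).map e.symm e'.symm) i
  rcases k : m i with x | x <;> simp only [k, Sum.map_inl, Sum.map_inr] at this <;>
    simpa [RelIso.symm_apply_eq] using this

theorem IIWins.of_iso (e : r ≃r s) : IIWins r s γ := by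
  refine ⟨fun m i => ((m i).elim id e.symm, (m i).elim e id), fun m m' i H => ?_,
    fun m i => ?_, fun m i j => ?_⟩ <;> dsimp only
  · rw [H i le_rfl]
  · rcases m i with x | x <;> simp
  · rw [← e.map_rel_iff]
    rcases m i with x | x <;> rcases m j with y | y <;> simp

theorem IIWins.step (h : IIWins r s γ) (hγ : Ordinal.omega 1 < γ) (τ : W → A) :
    ∃ ρ : W → B, (∀ v w, r (τ v) (τ w) ↔ s (ρ v) (ρ w)) ∧
      ∀ z, ∃ x, ∀ w, (r x (τ w) ↔ s z (ρ w)) ∧ (r (τ w) x ↔ s (ρ w) z) := by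
  obtain ⟨Φ, a, b, c⟩ := h
  obtain ⟨w0⟩ : Nonempty W := inferInstance
  let m : A ⊕ B → Iio γ → A ⊕ B := fun z i =>
    if h : i.1 < Ordinal.omega 1 then .inl (τ ⟨i.1, h⟩) else z
  let e : W → Iio γ := fun w => ⟨w.1, w.2.trans hγ⟩
  have h1 : ∀ z w, (Φ (m z) (e w)).1 = τ w := fun z w => by
    have := b (m z) (e w)
    rw [show m z (e w) = .inl (τ w) from dif_pos w.2] at this
    simpa [eq_comm] using this
  have h2 : ∀ z w, Φ (m z) (e w) = Φ (m (.inl (τ w0))) (e w) := fun z w => a _ _ _ fun j hj =>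
    have k : j.1 < Ordinal.omega 1 := lt_of_le_of_lt hj w.2
    by simp only [m, dif_pos k]
  refine ⟨fun w => (Φ (m (.inl (τ w0))) (e w)).2, fun v w => by rw [← c, h1, h1], fun z => ?_⟩
  have h3 : (Φ (m (.inr z)) ⟨_, hγ⟩).2 = z := by
    have := b (m (.inr z)) ⟨_, hγ⟩
    rw [show m (.inr z) ⟨_, hγ⟩ = .inr z from dif_neg (lt_irrefl _)] at this
    simpa [eq_comm] using this
  refine ⟨(Φ (m (.inr z)) ⟨_, hγ⟩).1, fun w => ?_⟩
  have k1 := c (m (.inr z)) ⟨_, hγ⟩ (e w)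
  have k2 := c (m (.inr z)) (e w) ⟨_, hγ⟩
  rw [h1, h2, h3] at k1 k2
  exact ⟨k1, k2⟩

end game

theorem W_surj {T : Type} [Nonempty T] (h : Cardinal.mk T ≤ Cardinal.aleph 1) :
    ∃ e : W → T, Function.Surjective e := by
  obtain ⟨f⟩ : Nonempty (T ↪ W) := by
    rw [← Cardinal.lift_mk_le', W_card, Cardinal.lift_lift]
    exact Cardinal.lift_le.2 h
  exact ⟨_, Function.invFun_surjective f.injective⟩

theorem loses {ι : Type} {P Q : Ultrafilter ι} {u : ι → ℕ} (hu : Tendsto u P atTop)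
    (hu' : Tendsto u Q atTop) {C : Set (ι → ℕ)} (hC : Cardinal.mk C ≤ Cardinal.aleph 1)
    (h1 : ∀ c ∈ C, Tendsto c P atTop)
    (h2 : ∀ f, Tendsto f P atTop → ∃ c ∈ C, ∀ᶠ i in P, c i < f i) (hL : LB (Q : Filter ι))
    {γ : Ordinal.{0}} (hγ : Ordinal.omega 1 < γ) :
    ¬ IIWins ((· ≤ ·) : NL (Germ (P : Filter ι) ℕ) → _ → Prop)
      ((· ≤ ·) : NL (Germ (Q : Filter ι) ℕ) → _ → Prop) γ := fun h => by
  let s : NL (Germ (P : Filter ι) ℕ) :=
    ⟨{x | ∃ n : ℕ, x ≤ Germ.const n}, fun x y k ⟨n, e⟩ => ⟨n, k.trans e⟩, _, 0, le_rfl⟩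
  let τ : Option (ℕ ⊕ C) → NL (Germ (P : Filter ι) ℕ) := fun o =>
    o.elim s fun t => princ (t.elim Germ.const fun c => (c.1 : Germ (P : Filter ι) ℕ))
  obtain ⟨e, he⟩ := W_surj (T := Option (ℕ ⊕ C)) (by
    have k := Cardinal.aleph0_le_aleph 1
    simp only [Cardinal.mk_option, Cardinal.mk_sum, Cardinal.lift_id, Cardinal.mk_nat]
    exact Cardinal.add_le_of_le k (Cardinal.add_le_of_le k k hC) (Cardinal.one_le_aleph0.trans k))
  obtain ⟨ρ, a, b⟩ := h.step hγ (τ ∘ e)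
  choose g hg using he
  have lt : ∀ v w, τ (e v) < τ (e w) → ρ v < ρ w := fun v w k =>
    not_le.1 fun n => k.not_ge ((a w v).2 n)
  have sc : ∀ c : C, s < τ (some (.inr c)) := fun c => lt_princ.2 fun ⟨n, k⟩ =>
    let ⟨_, d, f⟩ := ((Germ.coe_le.1 k).and ((h1 c c.2).eventually_gt_atTop n)).exists
    f.not_ge d
  obtain ⟨c0, hc0, -⟩ := h2 u hu
  have hb : ∀ w, ∃ y : ι → ℕ, (s < τ (e w) → ↑y ∈ (ρ w).1) ∧ ↑y ∉ (ρ (g none)).1 := fun w => by
    have : ∀ w, s < τ (e w) → ∃ y : ι → ℕ, ↑y ∈ (ρ w).1 ∧ ↑y ∉ (ρ (g none)).1 := fun w k => by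
      obtain ⟨y, hy⟩ := nl_lt.1 (lt (g none) w (by rwa [hg]))
      induction y using Germ.inductionOn with | _ y => exact ⟨y, hy⟩
    by_cases k : s < τ (e w)
    · exact (this w k).imp fun y hy => ⟨fun _ => hy.1, hy.2⟩
    · exact (this (g (some (.inr ⟨c0, hc0⟩))) (by rw [hg]; exact sc _)).imp
        fun y hy => ⟨fun n => (k n).elim, hy.2⟩
  have ha : ∀ n : ℕ, ∃ y : ι → ℕ, ↑y ∈ (ρ (g none)).1 ∧ ↑y ∉ (ρ (g (some (.inl n)))).1 :=
    fun n => by
    obtain ⟨y, hy⟩ := nl_lt.1 (lt (g (some (.inl n))) (g none) (by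
      rw [hg, hg]
      exact nl_lt.2 ⟨_, ⟨n + 1, le_rfl⟩, (Germ.const_lt n.lt_succ_self).not_ge⟩))
    induction y using Germ.inductionOn with | _ y => exact ⟨y, hy⟩
  choose β b1 b2 using hb
  choose α a1 a2 using ha
  obtain ⟨z, z1, z2⟩ := fill hu' hL α β fun n w => Germ.coe_lt.1 (lt_of_mem (a1 n) (b2 w))
  have key : ∀ y : Germ (Q : Filter ι) ℕ, (∀ n, ↑(α n) ≤ y) → (∀ w, y ≤ β w) →
      princ y = ρ (g none) := fun y y1 y2 => by
    obtain ⟨x, hx⟩ := b (princ y)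
    have e1 : x = τ (e (g none)) := by
      rw [hg]
      refine le_antisymm (fun f hf => by_contra fun n => ?_) fun f ⟨n, hf⟩ => x.2.1 hf ?_
      · induction f using Germ.inductionOn with | _ f => ?_
        obtain ⟨c, c1, c2⟩ := h2 f (tendsto_atTop.2 fun k =>
          (Germ.coe_lt.1 (not_le.1 fun d => n ⟨k, d⟩)).mono fun _ => le_of_lt)
        have := (hx (g (some (.inr ⟨c, c1⟩)))).1.2
          (princ_le.2 ((ρ _).2.1 (y2 _) (b1 _ (by rw [hg]; exact sc _))))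
        rw [Function.comp_apply, hg] at this
        exact (Germ.coe_lt.2 c2).not_ge (this hf)
      · have := (hx (g (some (.inl n)))).2.2
          fun v hv => (lt_of_mem hv (a2 n)).le.trans (y1 n)
        rw [Function.comp_apply, hg] at this
        exact princ_le.1 this
    exact le_antisymm ((hx _).1.1 e1.le) ((hx _).2.1 e1.ge)
  obtain ⟨z', hz⟩ := (disc hu').succ z
  exact (princ_covBy hz).lt.ne ((key z (fun n => Germ.coe_le.2 (z1 n))
    fun w => (Germ.coe_lt.2 (z2 w)).le).trans (key z' (fun n => (Germ.coe_le.2 (z1 n)).trans hz.le)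
    fun w => hz.ge_of_gt (Germ.coe_lt.2 (z2 w))).symm)

theorem germ_iso (P : Ultrafilter ℕ+) :
    Nonempty (Germ (P : Filter ℕ+) ℕ+ ≃o Germ (P : Filter ℕ+) ℕ) := by
  obtain ⟨e, -⟩ := iso_of_rel (fun (x : Germ (P : Filter ℕ+) ℕ+) (y : Germ (P : Filter ℕ+) ℕ) =>
    x.map PNat.natPred = y) (by
      rintro a _ b _ rfl rfl
      induction a using Germ.inductionOn with | _ f => ?_
      induction b using Germ.inductionOn with | _ g => ?_
      simp [Germ.coe_le, EventuallyLE]) (fun a => ⟨_, rfl⟩) fun b => by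
    induction b using Germ.inductionOn with | _ f => ?_
    exact ⟨((fun i => (f i).succPNat : ℕ+ → ℕ+) : Germ (P : Filter ℕ+) ℕ+), by
      simp [Function.comp_def]⟩
  exact ⟨e⟩

theorem big_iff {P : Ultrafilter ℕ+} {f : ℕ+ → ℕ+} :
    Tendsto (fun i => (f i).natPred) P atTop ↔ ∀ n : ℕ+, {i | n < f i} ∈ P :=
  ⟨fun h n => (h.eventually_gt_atTop n.natPred).mono fun _ a => PNat.natPred_strictMono.lt_iff_lt.1 a,
    fun h => tendsto_atTop.2 fun n => mem_of_superset (h n.succPNat) fun _ a =>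
      (PNat.natPred_strictMono a).le⟩

theorem tendsto_of_ne {P : Ultrafilter ℕ+} (h : ∀ n, P ≠ pure n) :
    Tendsto PNat.natPred P atTop := by
  refine (PNat.natPred_injective.tendsto_cofinite.mono_left
    (P.le_cofinite_or_eq_pure.resolve_right fun ⟨n, hn⟩ => h n hn)).mono_right ?_
  rw [Nat.cofinite_eq_atTop]

universe u

variable {M : Type u} [fullLang.Structure M] (ι : ℕ+ ↪ₑ[fullLang] M) (hs : Sat M)
include ι hs

theorem iso_nat {P : Ultrafilter ℕ+} (hP : {p : ℕ+ | (p : ℕ).Prime} ∈ P) :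
    Nonempty (preceq M P ≃r ((· ≤ ·) : NL (Germ (P : Filter ℕ+) ℕ) → _ → Prop)) :=
  let ⟨a⟩ := iso_NL ι hs hP
  let ⟨b⟩ := nl_iso_iff.2 (germ_iso P)
  ⟨a.trans b⟩

theorem main (γ : Ordinal.{0}) :
    (∀ P Q : Ultrafilter ℕ+,
      {p : ℕ+ | (p : ℕ).Prime} ∈ P → (∀ n, P ≠ pure n) →
      {p : ℕ+ | (p : ℕ).Prime} ∈ Q → (∀ n, Q ≠ pure n) →
      IIWins (preceq M P) (preceq M Q) γ) ↔
    (γ ≤ Ordinal.omega 1 ∨ Cardinal.continuum.{0} = Cardinal.aleph 1) := by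
  refine ⟨fun h => by_contra fun n => ?_, fun h P Q h1 h2 h3 h4 => ?_⟩
  · rw [not_or, not_le] at n
    obtain ⟨P, C, hP, hC, c1, c2⟩ := exists_ultrafilter Cardinal.aleph0 le_rfl
      (by rw [Cardinal.succ_aleph0]; exact Cardinal.aleph_one_le_continuum)
    obtain ⟨Q, C', hQ, -, d1, d2⟩ := exists_ultrafilter (Cardinal.aleph 1)
      (Cardinal.aleph0_le_aleph 1)
      (Order.succ_le_of_lt (lt_of_le_of_ne Cardinal.aleph_one_le_continuum (Ne.symm n.2)))
    have np : ∀ (U : Ultrafilter ℕ+) (c : ℕ+ → ℕ+), (∀ n : ℕ+, {i | n < c i} ∈ U) →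
        ∀ n, U ≠ pure n := by
      rintro U c hc n rfl
      simpa using hc (c n)
    obtain ⟨c0, hc0, -⟩ := c2 ∅ (by simp) (by simp)
    obtain ⟨c0', hc0', -⟩ := d2 ∅ (by simp) (by simp)
    have p1 := np P c0 (c1 _ hc0)
    have p2 := np Q c0' (d1 _ hc0')
    obtain ⟨a⟩ := iso_nat ι hs hP
    obtain ⟨b⟩ := iso_nat ι hs hQ
    refine loses (tendsto_of_ne p1) (tendsto_of_ne p2) (C := (fun c i => (c i).natPred) '' C)
      (Cardinal.mk_image_le.trans (by rwa [Cardinal.succ_aleph0] at hC)) ?_ (fun f hf => ?_)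
      (fun c hc => ?_) n.1 ((h P Q hP p1 hQ p2).congr a b)
    · rintro _ ⟨c, hc, rfl⟩
      exact big_iff.2 (c1 c hc)
    · obtain ⟨c, k, l⟩ := c2 {fun i => (f i).succPNat} (by simp) (by
        rintro _ rfl
        exact big_iff.1 hf)
      exact ⟨_, ⟨c, k, rfl⟩, mem_of_superset (l _ rfl) fun i a => PNat.natPred_strictMono a⟩
    · obtain ⟨g, k, l⟩ := d2 (range fun w i => (c w i).succPNat) (by
        have := Cardinal.mk_range_le_lift (f := fun w i => (c w i).succPNat)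
        rwa [W_card, Cardinal.lift_lift, Cardinal.lift_le] at this) (by
        rintro _ ⟨w, rfl⟩
        exact big_iff.1 (hc w))
      exact ⟨_, big_iff.2 (d1 g k), fun w =>
        mem_of_superset (l _ ⟨w, rfl⟩) fun i a => (PNat.natPred_strictMono a).le⟩
  rcases h with h | h
  · obtain ⟨a⟩ := iso_nat ι hs h1
    obtain ⟨b⟩ := iso_nat ι hs h3
    exact ((disc (tendsto_of_ne h2)).wins (disc (tendsto_of_ne h4)) h).congr a.symm b.symm
  · obtain ⟨e⟩ := (MP_efa640_lc.main ι hs).2 h P Q h1 h2 h3 h4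
    exact .of_iso e

end Pool.Agent.P.MP_efa640_lc.EF
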