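import Pool.Agent.P.MP_efa640_lc.EF.Low

/-! Cuts in ultrapowers of the natural numbers. -/

namespace Pool.Agent.P.MP_efa640_lc.EF

open Set Filter

/-- the countable ordinals -/
abbrev W : Type 1 := Iio (Ordinal.omega.{0} 1)

theorem W_cnt (w : W) : (Iio w).Countable :=
  (countable_Iio_of_lt w.2).preimage Subtype.val_injective

theorem W_card : Cardinal.mk W = Cardinal.lift.{1} (Cardinal.aleph.{0} 1) := by
  rw [Cardinal.mk_Iio_ordinal, Ordinal.card_omega]

instance : Uncountable W := by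
  rw [← Cardinal.aleph0_lt_mk_iff, W_card, Cardinal.aleph0_lt_lift]
  exact Cardinal.aleph0_lt_aleph_one

theorem W_bdd {T : Set W} (h : T.Countable) : ∃ w, ∀ t ∈ T, t < w := by
  by_contra! n
  refine not_countable_univ ((h.biUnion fun t _ => (W_cnt t).insert t).mono fun w _ => ?_)
  obtain ⟨t, a, b⟩ := n w
  exact mem_biUnion a b.eq_or_lt

theorem W_gt (v w : W) : ∃ x, v < x ∧ w < x := by
  simpa using W_bdd (T := {v, w}) (to_countable _)

theorem tdc {X : Type*} [Nonempty X] (R : W → X → W → X → Prop) (Q : W → X → Prop)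
    (h : ∀ w (f : W → X), (∀ v < w, Q v (f v) ∧ ∀ u < v, R u (f u) v (f v)) →
      ∃ x, Q w x ∧ ∀ v < w, R v (f v) w x) :
    ∃ f : W → X, ∀ w, Q w (f w) ∧ ∀ v < w, R v (f v) w (f w) := by
  let F : W → X := wellFounded_lt.fix fun w rec =>
    Classical.epsilon fun x => Q w x ∧ ∀ v (h : v < w), R v (rec v h) w x
  have hF : ∀ w, F w = Classical.epsilon fun x => Q w x ∧ ∀ v < w, R v (F v) w x := fun w =>
    wellFounded_lt.fix_eq _ w
  refine ⟨F, fun w => ?_⟩
  induction w using WellFoundedLT.induction with | _ w ih => ?_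
  rw [hF w]
  exact Classical.epsilon_spec (h w F ih)

section seq

variable {L : Type*} [LinearOrder L]

theorem ul_of_seq {a : W → L} (m : Monotone a) (h : ∀ w, ∃ w', a w < a w') :
    UL {x | ∃ w, x ≤ a w} := fun A hA c => by
  choose f hf using fun x : A => hA x.2
  have := c.to_subtype
  obtain ⟨w, hw⟩ := W_bdd (countable_range f)
  obtain ⟨v, hv⟩ := h w
  exact ⟨a v, ⟨v, le_rfl⟩, fun x hx => ((hf ⟨x, hx⟩).trans (m (hw _ ⟨_, rfl⟩).le)).trans_lt hv⟩

theorem uc_of_gap {lo hi : W → L} (m : Monotone lo) (m' : Antitone hi) (h : ∀ w, lo w ≤ hi w)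
    (n : ¬ ∃ z, ∀ w, lo w ≤ z ∧ z ≤ hi w) :
    UL {x | ∃ w, x ≤ lo w} ∧ UR {x | ∃ w, x ≤ lo w} ∧ ∀ w, hi w ∉ {x | ∃ w, x ≤ lo w} := by
  have h' : ∀ v w, lo v ≤ hi w := fun v w =>
    (m (le_max_left v w)).trans ((h _).trans (m' (le_max_right v w)))
  have k : ∀ w, ∃ w', lo w < lo w' := fun w => by_contra fun e =>
    n ⟨lo w, fun v => ⟨not_lt.1 fun d => e ⟨v, d⟩, h' w v⟩⟩
  have l : ∀ w, hi w ∉ {x | ∃ w, x ≤ lo w} := fun w ⟨v, e⟩ =>
    let ⟨u, d⟩ := k v; (e.trans_lt d).not_ge (h' u w)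
  refine ⟨ul_of_seq m k, fun B hB c => ?_, l⟩
  have : ∀ x : B, ∃ w, hi w < x := fun x => by_contra fun e =>
    n ⟨x, fun v => ⟨not_lt.1 fun d => hB x.2 ⟨v, d.le⟩, not_lt.1 fun d => e ⟨v, d⟩⟩⟩
  choose f hf using this
  have := c.to_subtype
  obtain ⟨w, hw⟩ := W_bdd (countable_range f)
  exact ⟨hi w, l w, fun x hx => (m' (hw _ ⟨_, rfl⟩).le).trans_lt (hf ⟨x, hx⟩)⟩

end seq

section filter

variable {ι : Type*} {U : Filter ι} {u : ι → ℕ} (hu : Tendsto u U atTop)
include hu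

theorem csat {X C : Type*} [Nonempty X] [Countable C] (p : C → ι → X → Prop)
    (h : ∀ s : Finset C, ∀ᶠ i in U, ∃ x, ∀ c ∈ s, p c i x) :
    ∃ f : ι → X, ∀ c, ∀ᶠ i in U, p c i (f i) := by
  classical
  obtain ⟨e, he⟩ := Countable.exists_injective_nat C
  let R : ℕ → ι → X → Prop := fun k i x => ∀ c, e c ≤ k → p c i x
  refine ⟨fun i => Classical.epsilon (R (Nat.findGreatest (fun k => ∃ x, R k i x) (u i)) i),
    fun c => ?_⟩
  have fin : {d | e d ≤ e c}.Finite := (finite_Iic (e c)).preimage he.injOn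
  filter_upwards [hu.eventually_ge_atTop (e c), h fin.toFinset] with i hi ⟨x, hx⟩
  have hz : ∃ x, R (e c) i x := ⟨x, fun d hd => hx d (fin.mem_toFinset.2 hd)⟩
  exact Classical.epsilon_spec (Nat.findGreatest_spec (P := fun k => ∃ x, R k i x) hi hz) c
    (Nat.le_findGreatest hi hz)

theorem low {C : Type*} [Countable C] (c : C → ι → ℕ) (hc : ∀ j, Tendsto (c j) U atTop) :
    ∃ g, Tendsto g U atTop ∧ ∀ j, ∀ᶠ i in U, g i < c j i := by
  obtain ⟨g, hg⟩ := csat hu (C := C × ℕ) (fun z i x => z.2 ≤ x ∧ x < c z.1 i) fun s => by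
    filter_upwards [(eventually_all_finset s).2 fun z _ =>
      (hc z.1).eventually_gt_atTop (s.sup Prod.snd)] with i hi
    exact ⟨s.sup Prod.snd, fun z hz => ⟨Finset.le_sup hz, hi z hz⟩⟩
  rcases isEmpty_or_nonempty C with e | ⟨⟨j⟩⟩
  · exact ⟨u, hu, isEmptyElim⟩
  · exact ⟨g, tendsto_atTop.2 fun n => (hg (j, n)).mono fun _ a => a.1,
      fun j => (hg (j, 0)).mono fun _ a => a.2⟩

theorem dec (c : W → ι → ℕ) (hc : ∀ w, Tendsto (c w) U atTop) :
    ∃ h : W → ι → ℕ, ∀ w, (Tendsto (h w) U atTop ∧ ∀ᶠ i in U, h w i < c w i) ∧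
      ∀ v < w, ∀ᶠ i in U, h w i < h v i :=
  tdc (fun _ g _ h => ∀ᶠ i in U, h i < g i)
    (fun w h => Tendsto h U atTop ∧ ∀ᶠ i in U, h i < c w i) fun w f hf => by
      have := (W_cnt w).to_subtype
      obtain ⟨g, a, b⟩ := low hu (fun o : Option (Iio w) => o.elim (c w) fun v => f v) (by
        rintro (_ | v)
        exacts [hc w, (hf v v.2).1.1])
      exact ⟨g, ⟨a, b none⟩, fun v hv => b (some ⟨v, hv⟩)⟩

omit hu in
variable (U) in
/-- every `ℵ₁` infinite elements of the ultrapower have an infinite lower bound -/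
def LB : Prop := ∀ c : W → ι → ℕ, (∀ w, Tendsto (c w) U atTop) →
  ∃ g, Tendsto g U atTop ∧ ∀ w, ∀ᶠ i in U, g i ≤ c w i

theorem fill {X : Type*} [LinearOrder X] (hL : LB U) (a : ℕ → ι → X) (b : W → ι → X)
    (h : ∀ n w, ∀ᶠ i in U, a n i < b w i) :
    ∃ z : ι → X, (∀ n, ∀ᶠ i in U, a n i ≤ z i) ∧ ∀ w, ∀ᶠ i in U, z i < b w i := by
  classical
  obtain ⟨g, g1, g2⟩ := hL (fun w i => Nat.findGreatest (fun n => ∀ k ≤ n, a k i < b w i) (u i))
    fun w => tendsto_atTop.2 fun n => by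
      filter_upwards [hu.eventually_ge_atTop n,
        (eventually_all_finite (finite_Iic n)).2 fun k _ => h k w] with i h1 h2
      exact Nat.le_findGreatest h1 h2
  choose k k1 k2 using fun i => exists_max_image _ (fun k => a k i) (finite_Iic (g i)) nonempty_Iic
  refine ⟨fun i => a (k i) i, fun n => (g1.eventually_ge_atTop n).mono fun i hi => k2 i n hi,
    fun w => ?_⟩
  filter_upwards [g2 w, h 0 w] with i h1 h2
  exact Nat.findGreatest_spec (P := fun n => ∀ k ≤ n, a k i < b w i) (Nat.zero_le _)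
    (fun k hk => Nat.le_zero.1 hk ▸ h2) _ (le_trans (k1 i) h1)

end filter

/-- the binary digits agree from the place `m` on -/
def Ag (m x y : ℕ) : Prop := x / 2 ^ m = y / 2 ^ m

theorem Ag.mono {m m' x y : ℕ} (h : Ag m x y) (hm : m ≤ m') : Ag m' x y := by
  obtain ⟨k, rfl⟩ := Nat.exists_eq_add_of_le hm
  rw [Ag, pow_add, ← Nat.div_div_eq_div_mul, ← Nat.div_div_eq_div_mul, h]

theorem Ag.bit {m t x y : ℕ} (h : Ag m x y) (hm : m ≤ t) : x.testBit t = y.testBit t := by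
  obtain ⟨k, rfl⟩ := Nat.exists_eq_add_of_le' hm
  rw [← Nat.testBit_div_two_pow, ← Nat.testBit_div_two_pow, h]

theorem ag_iff {m x z : ℕ} :
    Ag m z x ↔ x / 2 ^ m * 2 ^ m ≤ z ∧ z ≤ x / 2 ^ m * 2 ^ m + 2 ^ m - 1 :=
  Nat.div_eq_iff (Nat.two_pow_pos m)

/-- the number of ones in the block `j` -/
def cnt (K n j : ℕ) : ℕ := ((Finset.range K).filter fun t => n.testBit (K * j + t)).card

theorem Ag.cnt {K h j x y : ℕ} (a : Ag (K * h) x y) (hj : h ≤ j) : cnt K x j = cnt K y j :=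
  congrArg Finset.card (Finset.filter_congr fun t _ => by
    rw [a.bit ((Nat.mul_le_mul_left K hj).trans (Nat.le_add_right _ _))])

theorem step (K h n : ℕ) (F : Finset ℕ) : ∃ x, Ag (K * h) x n ∧
    ∀ j < h, (∀ t ∈ F, t < K → x.testBit (K * j + t)) ∧ cnt K x j ≤ F.card := by
  have b := Nat.ofBits_lt_two_pow fun t : Fin (K * h) => decide (t.1 % K ∈ F)
  refine ⟨2 ^ (K * h) * (n / 2 ^ (K * h)) + Nat.ofBits fun t : Fin (K * h) => decide (t.1 % K ∈ F),
    ?_, fun j hj => ?_⟩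
  · rw [Ag, Nat.mul_add_div (Nat.two_pow_pos _), Nat.div_eq_of_lt b, add_zero]
  have key : ∀ t < K, (2 ^ (K * h) * (n / 2 ^ (K * h)) + Nat.ofBits fun t : Fin (K * h) =>
      decide (t.1 % K ∈ F)).testBit (K * j + t) = decide (t ∈ F) := fun t ht => by
    have : K * j + t < K * h := by nlinarith
    rw [Nat.testBit_two_pow_mul_add _ b, if_pos this, Nat.testBit_ofBits_lt _ _ this]
    simp [Nat.mod_eq_of_lt ht]
  refine ⟨fun t a c => by simpa [key t c] using a, Finset.card_le_card fun t ht => ?_⟩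
  obtain ⟨a, c⟩ := Finset.mem_filter.1 ht
  simpa [key t (Finset.mem_range.1 a)] using c

variable {ι : Type*} {U : Ultrafilter ι} {u : ι → ℕ} (hu : Tendsto u U atTop)
include hu

theorem gap (hL : ¬ LB (U : Filter ι)) {K : ι → ℕ} (hK : Tendsto K U atTop) :
    ∃ lo hi : W → ι → ℕ, (∀ w, ∀ v < w, ∀ᶠ i in U, lo v i ≤ lo w i ∧ hi w i ≤ hi v i) ∧
      (∀ w, ∀ᶠ i in U, lo w i ≤ hi w i ∧ hi w i < 2 ^ (K i * K i)) ∧
      ¬ ∃ z : ι → ℕ, ∀ w, ∀ᶠ i in U, lo w i ≤ z i ∧ z i ≤ hi w i := by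
  classical
  obtain ⟨c, c1, c2⟩ : ∃ c : W → ι → ℕ, (∀ w, Tendsto (c w) U atTop) ∧
      ∀ g, (∀ w, ∀ᶠ i in U, g i ≤ c w i) → ¬ Tendsto g U atTop := by
    by_contra! n
    exact hL fun c hc => let ⟨g, a, b⟩ := n c hc; ⟨g, b, a⟩
  obtain ⟨h, hh⟩ := dec hu (fun w i => min (c w i) (K i)) fun w => tendsto_atTop.2 fun n =>
    (((c1 w).eventually_ge_atTop n).and (hK.eventually_ge_atTop n)).mono fun _ a => le_min a.1 a.2
  have hK' : ∀ w, ∀ᶠ i in U, h w i < K i := fun w =>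
    (hh w).1.2.mono fun _ a => a.trans_le (min_le_right _ _)
  let R : W → ι → ℕ → W → ℕ → Prop := fun v i x w y => Ag (K i * h v i) y x ∧
    ∀ j, h w i ≤ j → j < h v i → y.testBit (K i * j + h v i)
  let Q : W → ι → ℕ → Prop := fun w i y => Ag (K i * K i) y 0 ∧ ∀ j, h w i ≤ j → cnt (K i) y j ≤ j
  obtain ⟨n, hn⟩ := tdc (X := ι → ℕ) (fun v x w y => ∀ᶠ i in U, R v i (x i) w (y i))
    (fun w y => ∀ᶠ i in U, Q w i (y i)) fun w f hf => by
    have := (W_cnt w).to_subtype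
    obtain ⟨y, hy⟩ := csat hu (C := Option (Iio w))
      (fun o i y => Q w i y ∧ ∀ v ∈ o, R v i (f v i) w y) fun s => by
      obtain ⟨H, N, e⟩ : ∃ H N : ι → ℕ, ∀ᶠ i in U, (H i ≤ K i ∧ Ag (K i * K i) (N i) 0 ∧
          ∀ j, H i ≤ j → cnt (K i) (N i) j ≤ j) ∧ ∀ v ∈ s.eraseNone, H i ≤ h v i ∧
            Ag (K i * h v i) (N i) (f v i) ∧
            ∀ j, H i ≤ j → j < h v i → (N i).testBit (K i * j + h v i) := by
        rcases s.eraseNone.eq_empty_or_nonempty with e | e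
        · exact ⟨K, 0, .of_forall fun i => ⟨⟨le_rfl, rfl, fun j _ => by simp [cnt]⟩, by simp [e]⟩⟩
        obtain ⟨m, -, hm⟩ := s.eraseNone.exists_max_image id e
        refine ⟨h m, f m, (((hK' m).and (hf m m.2).1).mono fun i a => ⟨a.1.le, a.2⟩).and
          ((eventually_all_finset _).2 fun v hv => ?_)⟩
        rcases (hm v hv).lt_or_eq with k | rfl
        · exact (((hh m).2 v k).and ((hf m m.2).2 v k)).mono fun i a => ⟨a.1.le, a.2⟩
        · exact .of_forall fun i => ⟨le_rfl, rfl, fun j a b => (b.not_ge a).elim⟩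
      filter_upwards [e, (hh w).1.1.eventually_ge_atTop s.eraseNone.card,
        (eventually_all_finset s.eraseNone).2 fun v _ => hK' v] with i ⟨⟨e1, e2, e3⟩, e4⟩ e5 e6
      obtain ⟨x, x1, x2⟩ := step (K i) (H i) (N i) (s.eraseNone.image fun v : Iio w => h v i)
      refine ⟨x, fun o ho => ⟨⟨(x1.mono (Nat.mul_le_mul_left _ e1)).trans e2, fun j hj => ?_⟩,
        fun v hv => ?_⟩⟩
      · rcases lt_or_ge j (H i) with k | k
        · exact (x2 j k).2.trans (Finset.card_image_le.trans (e5.trans hj))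
        · exact (x1.cnt k).trans_le (e3 j k)
      · have mv : v ∈ s.eraseNone := Finset.mem_eraseNone.2 ((Option.mem_def.1 hv) ▸ ho)
        obtain ⟨a, b, d⟩ := e4 v mv
        refine ⟨(x1.mono (Nat.mul_le_mul_left _ a)).trans b, fun j _ hj => ?_⟩
        rcases lt_or_ge j (H i) with k | k
        · exact (x2 j k).1 _ (Finset.mem_image_of_mem _ mv) (e6 v mv)
        · rw [x1.bit ((Nat.mul_le_mul_left _ k).trans (Nat.le_add_right _ _))]
          exact d j k hj
    exact ⟨y, (hy none).mono fun i a => a.1,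
      fun v hv => (hy (some ⟨v, hv⟩)).mono fun i a => a.2 _ rfl⟩
  have lh : ∀ m x : ℕ, x / 2 ^ m * 2 ^ m ≤ x / 2 ^ m * 2 ^ m + 2 ^ m - 1 := fun m x => by
    have := Nat.two_pow_pos m
    omega
  refine ⟨fun w i => n w i / 2 ^ (K i * h w i) * 2 ^ (K i * h w i), fun w i =>
    n w i / 2 ^ (K i * h w i) * 2 ^ (K i * h w i) + 2 ^ (K i * h w i) - 1, fun w v hv => ?_,
    fun w => ?_, fun ⟨z, hz⟩ => ?_⟩
  · filter_upwards [(hn w).2 v hv, (hh w).2 v hv] with i a b
    have k := Nat.mul_le_mul_left (K i) b.le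
    exact ⟨(ag_iff.1 (((ag_iff.2 ⟨le_rfl, lh _ _⟩).mono k).trans a.1)).1,
      (ag_iff.1 (((ag_iff.2 ⟨lh _ _, le_rfl⟩).mono k).trans a.1)).2⟩
  · filter_upwards [(hn w).1, hK' w] with i a b
    refine ⟨lh _ _, (Nat.div_eq_zero_iff_lt (Nat.two_pow_pos _)).1 ?_⟩
    exact (((ag_iff.2 ⟨lh _ _, le_rfl⟩).mono (Nat.mul_le_mul_left _ b.le)).trans a.1).trans
      (Nat.zero_div _)
  let P : W → ι → ℕ → Prop := fun v i m => ∀ j, m ≤ j → j < h v i →
    (z i).testBit (K i * j + h v i) ∧ cnt (K i) (z i) j ≤ j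
  have ex : ∀ v, ∃ k, ∀ᶠ i in U, P v i k := fun v => by
    have ne : ∀ i, ∃ m, P v i m := fun i => ⟨h v i, fun j a b => (b.not_ge a).elim⟩
    have := c2 (fun i => Nat.find (ne i)) fun w => by
      obtain ⟨x, x1, x2⟩ := W_gt v w
      filter_upwards [(hn x).1, (hn x).2 v x1, hz x, (hh x).2 w x2, (hh w).1.2] with i a b d e g
      refine (Nat.find_min' _ (m := h x i) fun j j1 j2 => ?_).trans
        ((e.trans g).le.trans (min_le_left _ _))
      rw [(ag_iff.2 d).cnt j1,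
        (ag_iff.2 d).bit ((Nat.mul_le_mul_left _ j1).trans (Nat.le_add_right _ _))]
      exact ⟨b.2 j j1 j2, a.2 j j1⟩
    rw [tendsto_atTop, not_forall] at this
    obtain ⟨k, hk⟩ := this
    exact ⟨k, (Ultrafilter.eventually_not.2 hk).mono fun i a j j1 =>
      Nat.find_spec (ne i) j ((not_le.1 a).le.trans j1)⟩
  choose k hk using ex
  obtain ⟨m, hm⟩ : ∃ m, (k ⁻¹' {m}).Infinite := by
    by_contra! e
    exact not_countable_univ ((countable_iUnion fun m => (e m).countable).mono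
      fun v _ => mem_iUnion.2 ⟨k v, rfl⟩)
  obtain ⟨s, s1, s2⟩ := hm.exists_subset_card_eq (m + 1)
  have e1 : ∀ᶠ i in U, ∀ v ∈ s, h v i ∈ (Finset.range (K i)).filter
      (fun t => (z i).testBit (K i * m + t)) ∧ cnt (K i) (z i) m ≤ m :=
    (eventually_all_finset s).2 fun v hv => by
      filter_upwards [hk v, hK' v, (hh v).1.1.eventually_gt_atTop m] with i a b d
      have := a m (show k v = m from s1 hv).le d
      exact ⟨Finset.mem_filter.2 ⟨Finset.mem_range.2 b, this.1⟩, this.2⟩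
  have e2 : ∀ᶠ i in U, ∀ v ∈ s, ∀ w ∈ s, v < w → h w i < h v i :=
    (eventually_all_finset s).2 fun v _ => (eventually_all_finset s).2 fun w _ =>
      eventually_imp_distrib_left.2 ((hh w).2 v)
  obtain ⟨i, a, b⟩ := (e1.and e2).exists
  obtain ⟨v, hv⟩ := Finset.card_pos.1 (m.succ_pos.trans_eq s2.symm)
  have := Finset.card_le_card_of_injOn (fun v => h v i) (fun v hv => (a v hv).1)
    (StrictAntiOn.injOn fun v hv w hw => b v hv w hw)
  exact (s2.ge.trans (this.trans (a v hv).2)).not_gt m.lt_succ_self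

theorem disc : Disc (Germ (U : Filter ι) ℕ) := by
  have rep : ∀ x : Germ (U : Filter ι) ℕ, ∃ f : ι → ℕ, (f : Germ (U : Filter ι) ℕ) = x :=
    fun x => Germ.inductionOn x fun f => ⟨f, rfl⟩
  have cov : ∀ f g : ι → ℕ, (∀ᶠ i in U, f i + 1 = g i) →
      (f : Germ (U : Filter ι) ℕ) ⋖ g := fun f g e => by
    refine ⟨Germ.coe_lt.2 (e.mono fun i a => by omega), fun x a b => ?_⟩
    obtain ⟨h, rfl⟩ := rep x
    obtain ⟨i, ⟨c, d⟩, k⟩ := (((Germ.coe_lt.1 a).and (Germ.coe_lt.1 b)).and e).exists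
    omega
  refine ⟨fun x => ?_, fun x y h => ?_, ⟨⊥, isBot_bot⟩, fun A B hA hB h => ?_, fun a b h => ?_⟩
  · obtain ⟨f, rfl⟩ := rep x
    exact ⟨_, cov f (fun i => f i + 1) (.of_forall fun _ => rfl)⟩
  · obtain ⟨f, rfl⟩ := rep x
    obtain ⟨g, rfl⟩ := rep y
    exact ⟨_, cov (fun i => f i - 1) f ((Germ.coe_lt.1 h).mono fun i a => by omega)⟩
  · choose r hr using rep
    have := hA.to_subtype
    have := hB.to_subtype
    obtain ⟨c, hc⟩ := csat hu (C := A ⊕ B)
      (fun o i x => o.elim (fun a : A => r a i ≤ x) fun b : B => x ≤ r b i) fun s => by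
      filter_upwards [(eventually_all_finset s.toLeft).2 fun a _ =>
        (eventually_all_finset s.toRight).2 fun b _ =>
          Germ.coe_le.1 ((hr a).trans_le ((h a a.2 b b.2).trans_eq (hr b).symm))] with i hi
      refine ⟨s.toLeft.sup fun a => r a i, ?_⟩
      rintro (a | b) k
      · exact Finset.le_sup (f := fun a : A => r a i) (Finset.mem_toLeft.2 k)
      · exact Finset.sup_le fun a ha => hi a ha b (Finset.mem_toRight.2 k)
    exact ⟨c, fun a ha => (hr a).ge.trans (Germ.coe_le.2 (hc (.inl ⟨a, ha⟩))),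
      fun b hb => (Germ.coe_le.2 (hc (.inr ⟨b, hb⟩))).trans (hr b).le⟩
  obtain ⟨f, rfl⟩ := rep a
  obtain ⟨g, rfl⟩ := rep b
  have hN : Tendsto (fun i => g i - f i) U atTop := tendsto_atTop.2 fun n => by_contra fun e => by
    refine h (((finite_Iio n).image fun k => ((fun i => f i + k : ι → ℕ) :
      Germ (U : Filter ι) ℕ)).subset fun x hx => ?_)
    obtain ⟨y, rfl⟩ := rep x
    obtain ⟨k, a, b⟩ := (Ultrafilter.eventually_exists_mem_iff (f := U)
      (P := fun k i => f i + k = y i) (finite_Iio n)).1 (by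
        filter_upwards [Germ.coe_lt.1 hx.1, Germ.coe_lt.1 hx.2, Ultrafilter.eventually_not.2 e]
          with i a b c
        exact ⟨y i - f i, mem_Iio.2 (by omega), by omega⟩)
    exact ⟨k, a, Germ.coe_eq.2 b⟩
  obtain ⟨w0⟩ : Nonempty W := inferInstance
  by_cases hL : LB (U : Filter ι)
  · obtain ⟨c, hc⟩ := dec hu (fun _ i => g i - f i) fun _ => hN
    have m : StrictMono fun w => ((fun i => g i - c w i : ι → ℕ) : Germ (U : Filter ι) ℕ) :=
      fun v w k => Germ.coe_lt.2 (by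
        filter_upwards [(hc w).2 v k, (hc v).1.2] with i a b
        omega)
    have nb : (g : Germ (U : Filter ι) ℕ) ∉ {x | ∃ w, x ≤ ((fun i => g i - c w i : ι → ℕ) :
        Germ (U : Filter ι) ℕ)} := fun ⟨w, e⟩ => by
      obtain ⟨i, ⟨a, b⟩, d⟩ := (((Germ.coe_le.1 e).and (hc w).1.2).and
        ((hc w).1.1.eventually_gt_atTop 0)).exists
      dsimp only at a
      omega
    have U1 := ul_of_seq m.monotone fun w => let ⟨v, a, _⟩ := W_gt w w; ⟨v, m a⟩
    refine ⟨{x | ∃ w, x ≤ ((fun i => g i - c w i : ι → ℕ) : Germ (U : Filter ι) ℕ)},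
      fun x y k ⟨w, e⟩ => ⟨w, k.trans e⟩, ⟨w0, Germ.coe_le.2 ?_⟩, nb, U1, fun B hB k => ?_⟩
    · filter_upwards [(hc w0).1.2] with i a
      omega
    obtain ⟨β, hβ⟩ := (k.insert (g : Germ (U : Filter ι) ℕ)).exists_eq_range (insert_nonempty _ _)
    choose r hr using fun n => rep (β n)
    obtain ⟨z, z1, z2⟩ := fill hu (X := ℕᵒᵈ) hL (fun n i => (r n i - 1 : ℕ))
      (fun w i => (g i - c w i : ℕ)) fun n w => by
      obtain ⟨v, a, -⟩ := W_gt w w
      have : β n ∉ _ := insert_subset nb hB (hβ ▸ mem_range_self n)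
      filter_upwards [Germ.coe_lt.1 (m a),
        Germ.coe_lt.1 ((not_le.1 fun e => this ⟨v, e⟩).trans_eq (hr n).symm)] with i b d
      exact show g i - c w i < r n i - 1 by omega
    refine ⟨(show ι → ℕ from z), fun ⟨w, e⟩ => (Germ.coe_lt.2 (z2 w)).not_ge e, fun x hx => ?_⟩
    obtain ⟨n, rfl⟩ : x ∈ range β := hβ ▸ mem_insert_of_mem _ hx
    refine (Germ.coe_lt.2 ?_).trans_eq (hr n)
    filter_upwards [z1 n, z2 w0] with i a b
    exact (show ∀ t : ℕ, t ≤ r n i - 1 → g i - c w0 i < t → t < r n i by omega) _ a b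
  · obtain ⟨lo, hi, a, b, c⟩ := gap hu hL (K := fun i => (Nat.log 2 (g i - f i)).sqrt)
      (tendsto_atTop.2 fun n => (hN.eventually_ge_atTop (2 ^ (n * n))).mono fun i e =>
        Nat.le_sqrt.2 (Nat.le_log_of_pow_le one_lt_two e))
    obtain ⟨k1, k2, k3⟩ := uc_of_gap (L := Germ (U : Filter ι) ℕ)
      (lo := fun w => ((fun i => f i + lo w i : ι → ℕ) : Germ (U : Filter ι) ℕ))
      (hi := fun w => ((fun i => f i + hi w i : ι → ℕ) : Germ (U : Filter ι) ℕ))
      (monotone_iff_forall_lt.2 fun v w k => Germ.coe_le.2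
        ((a w v k).mono fun i e => Nat.add_le_add_left e.1 _))
      (antitone_iff_forall_lt.2 fun v w k => Germ.coe_le.2
        ((a w v k).mono fun i e => Nat.add_le_add_left e.2 _))
      (fun w => Germ.coe_le.2 ((b w).mono fun i e => Nat.add_le_add_left e.1 _)) fun ⟨z, hz⟩ => by
        obtain ⟨y, rfl⟩ := rep z
        refine c ⟨fun i => y i - f i, fun w => ?_⟩
        filter_upwards [Germ.coe_le.1 (hz w).1, Germ.coe_le.1 (hz w).2] with i d e
        omega
    refine ⟨{x | ∃ w, x ≤ ((fun i => f i + lo w i : ι → ℕ) : Germ (U : Filter ι) ℕ)},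
      fun x y k ⟨w, e⟩ => ⟨w, k.trans e⟩,
      ⟨w0, Germ.coe_le.2 (.of_forall fun i => Nat.le_add_right _ _)⟩,
      fun ⟨w, e⟩ => k3 w0 ⟨w, (Germ.coe_le.2 ?_).trans e⟩, k1, k2⟩
    filter_upwards [b w0, hN.eventually_ne_atTop 0] with i d e
    have := (d.2.trans_le (Nat.pow_le_pow_right two_pos (Nat.sqrt_le _))).trans_le
      (Nat.pow_log_le_self 2 e)
    omega

end Pool.Agent.P.MP_efa640_lc.EF
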